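import Pool.Agent.V5helper51.EG.Stm

set_option autoImplicit false

/-! Project EG, part TB: the tail of one value. -/

namespace Pool.Agent.V5helper8.EG

open Finset Filter MeasureTheory Topology Complex
open Pool.Agent.N748.MG Pool.Agent.N748.MJ
open Pool.Agent.V5helper51.PL Pool.Agent.V5helper51.EG

theorem Ev_imp {P Q : ℝ → ℝ → Prop} {δ1 : ℝ} (h1 : 0 < δ1) (hP : Ev P)
    (h : ∀ X δ : ℝ, 0 < X → 0 < δ → δ ≤ δ1 → δ ≤ 1 / 16 → P X δ → Q X δ) : Ev Q := by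
  obtain ⟨lam, δ0, hl, hd, hd16, hev⟩ := hP
  refine ⟨lam, min δ0 δ1, hl, lt_min hd h1, (min_le_left _ _).trans hd16, ?_⟩
  filter_upwards [hev, eventually_gt_atTop (0 : ℝ)] with X hX hX0 δ h0 hle hc
  exact h X δ hX0 h0 (hle.trans (min_le_right _ _)) ((hle.trans (min_le_left _ _)).trans hd16)
    (hX δ h0 (hle.trans (min_le_left _ _)) hc)

theorem t_TB (hpos : ∀ V : ℝ, 0 < (aC (V : ℂ)).re) (hT : S_TLT) (hZ : S_ZB1) : S_TB := by
  intro V D hV hD
  obtain ⟨C, hC, hev⟩ := hT 0 V (max V 1) D hV (lt_max_of_lt_left hV) hD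
  obtain ⟨c1, C1, δ1, hc1, hC1, hδ1, hz⟩ := hZ 1 le_rfl
  have hA := hpos V
  refine ⟨C * (2 * C1) ^ (V ^ 2) * (2 * V * Real.sqrt Real.pi) / (aC (V : ℂ)).re, by positivity, ?_⟩
  refine Ev_imp hδ1 hev ?_
  intro X δ hX hδ hδle h16 hP c hc
  obtain ⟨N, hNm, hNs, hNv, -, hN⟩ := hP (fun j => j.elim0) (fun j => j.elim0)
  obtain ⟨-, hint⟩ := hN V c (fun j => j.elim0) le_rfl (le_max_left _ _) hc (fun j => j.elim0)
  simp only [Finset.univ_eq_empty, Finset.prod_empty, mul_one] at hint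
  -- the bound of the main term
  have hz1 : z1 δ 0 * δ ≤ C1 := by
    have := (hz δ hδ hδle 0 (by simp)).2
    rwa [abs_zero, max_eq_right hδ.le] at this
  have hz0 : 0 ≤ z1 δ 0 := norm_nonneg _
  have hz2 : z1 δ 0 ≤ (2 * C1) * (2 * δ)⁻¹ := by
    rw [← div_eq_mul_inv, le_div_iff₀ (by positivity)]
    linarith
  have hz3 : z1 δ 0 ^ (V ^ 2) ≤ (2 * C1) ^ (V ^ 2) * (2 * δ) ^ (-V ^ 2) := by
    refine (Real.rpow_le_rpow hz0 hz2 (by positivity)).trans (le_of_eq ?_)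
    rw [Real.mul_rpow (by positivity) (by positivity), Real.inv_rpow (by positivity),
      ← Real.rpow_neg (by positivity)]
  have hl1 : 0 < Real.log (1 / (2 * δ)) := by
    apply Real.log_pos
    rw [lt_div_iff₀ (by positivity)]
    linarith
  have hl2 : Real.log (1 / (2 * δ)) ≤ Real.log (1 / δ) := by
    apply Real.log_le_log (by positivity)
    apply one_div_le_one_div_of_le hδ
    linarith
  have hs : 0 < Real.sqrt (Real.log (1 / (2 * δ))) := Real.sqrt_pos.2 hl1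
  have hs2 : Real.sqrt (Real.log (1 / (2 * δ))) ≤ Real.sqrt (Real.log (1 / δ)) := Real.sqrt_le_sqrt hl2
  have hmain : C * X / Real.sqrt (Real.log (1 / δ)) * c ^ (-(2 * V)) * z1 δ 0 ^ (V ^ 2) ≤
      X * (C * (2 * C1) ^ (V ^ 2) * (2 * V * Real.sqrt Real.pi) / (aC (V : ℂ)).re * nu V δ c) := by
    have e1 : C * X / Real.sqrt (Real.log (1 / δ)) ≤ C * X / Real.sqrt (Real.log (1 / (2 * δ))) := by
      apply div_le_div_of_nonneg_left (by positivity) hs hs2
    have e2 : X * (C * (2 * C1) ^ (V ^ 2) * (2 * V * Real.sqrt Real.pi) / (aC (V : ℂ)).re * nu V δ c) =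
        C * X / Real.sqrt (Real.log (1 / (2 * δ))) * c ^ (-(2 * V)) *
          ((2 * C1) ^ (V ^ 2) * (2 * δ) ^ (-V ^ 2)) := by
      unfold nu
      rw [Real.sqrt_mul Real.pi_pos.le]
      have hp : 0 < Real.sqrt Real.pi := Real.sqrt_pos.2 Real.pi_pos
      field_simp
    rw [e2]
    exact mul_le_mul (mul_le_mul_of_nonneg_right e1 (by positivity)) hz3 (by positivity) (by positivity)
  have hnu : 0 ≤ nu V δ c := by
    unfold nu
    positivity
  -- the measure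
  have hsub : {t : ℝ | 0 ≤ t ∧ t ≤ X ∧ c < mz δ t} ⊆ (N ∩ {t : ℝ | c < mz δ t}) ∪ (Set.Icc 0 X \ N) := by
    rintro t ⟨h0, h1, h2⟩
    by_cases ht : t ∈ N
    · exact Or.inl ⟨ht, h2⟩
    · exact Or.inr ⟨⟨h0, h1⟩, ht⟩
  have hvol : volume (N ∩ {t : ℝ | c < mz δ t}) ≤
      ENNReal.ofReal (X * (C * (2 * C1) ^ (V ^ 2) * (2 * V * Real.sqrt Real.pi) / (aC (V : ℂ)).re * nu V δ c)) := by
    have hfin : volume (N ∩ {t : ℝ | c < mz δ t}) ≠ ⊤ := by
      refine ne_top_of_le_ne_top ?_ (measure_mono (Set.inter_subset_left.trans hNs))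
      rw [Real.volume_Icc]
      exact ENNReal.ofReal_ne_top
    have hi : ∫ t in N ∩ {t : ℝ | c < mz δ t}, (1 : ℝ) = (volume (N ∩ {t : ℝ | c < mz δ t})).toReal := by
      rw [setIntegral_const, smul_eq_mul, mul_one]
      rfl
    rw [hi] at hint
    rw [← ENNReal.ofReal_toReal hfin]
    exact ENNReal.ofReal_le_ofReal (hint.trans hmain)
  calc volume {t : ℝ | 0 ≤ t ∧ t ≤ X ∧ c < mz δ t}
      ≤ volume (N ∩ {t : ℝ | c < mz δ t}) + volume (Set.Icc 0 X \ N) :=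
        (measure_mono hsub).trans (measure_union_le _ _)
    _ ≤ ENNReal.ofReal (X * (C * (2 * C1) ^ (V ^ 2) * (2 * V * Real.sqrt Real.pi) / (aC (V : ℂ)).re * nu V δ c)) +
        ENNReal.ofReal (δ ^ D * X) := add_le_add hvol hNv
    _ = ENNReal.ofReal (X * (δ ^ D + C * (2 * C1) ^ (V ^ 2) * (2 * V * Real.sqrt Real.pi) / (aC (V : ℂ)).re * nu V δ c)) := by
        rw [← ENNReal.ofReal_add (by positivity) (by positivity)]
        congr 1
        ring

end Pool.Agent.V5helper8.EG
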